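import Pool.Agent.Lib.MP_50bb2e_nt.MT.Iface

/-! Module CND: the norm of the conductor and the norm of the odd part are comparable. -/

open NumberField IsDedekindDomain Filter Topology

namespace Pool.Agent.Lib.MP_50bb2e_nt.MT.H31

open Pool.Agent.Lib.MP_50bb2e_nt.MT

variable {F : Type} [Field F] [NumberField F]

theorem nm_pos (v : Pr F) : 1 ≤ nm v := by
  unfold nm
  apply Nat.one_le_iff_ne_zero.2
  intro h
  exact v.ne_bot (Ideal.absNorm_eq_zero_iff.1 h)

theorem prod_pos' (s : Finset (Pr F)) (e : Pr F → ℕ) : 1 ≤ ∏ v ∈ s, nm v ^ e v := by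
  have h : 0 < ∏ v ∈ s, nm v ^ e v := Finset.prod_pos (fun v _ => Nat.pow_pos (nm_pos v))
  exact h

theorem prod_pos1 (s : Finset (Pr F)) : 1 ≤ ∏ v ∈ s, nm v := by
  have h : 0 < ∏ v ∈ s, nm v := Finset.prod_pos (fun v _ => nm_pos v)
  exact h

theorem prod_le' (s : Finset (Pr F)) (e e' : Pr F → ℕ) (h : ∀ v ∈ s, e v ≤ e' v) :
    ∏ v ∈ s, nm v ^ e v ≤ ∏ v ∈ s, nm v ^ e' v :=
  Finset.prod_le_prod' (fun v hv => Nat.pow_le_pow_right (nm_pos v) (h v hv))

theorem cnd (h1 : OrdS) (h2 : CexS) : CndS := by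
  classical
  intro F _ _
  obtain ⟨hbad, hgood, hbd, htr, htr2⟩ := h2 F
  have hsp : ∀ (v : Pr F) (q : Quad F), v ∈ sp q ↔ OddAt v q := (h1 F).2.1
  choose b hb using hbd
  set S : Finset (Pr F) := hbad.toFinset with hS
  have hmemS : ∀ v : Pr F, v ∈ S ↔ v.valuation F 2 ≠ 1 := by
    intro v
    rw [hS, Set.Finite.mem_toFinset]
    rfl
  have hval : ∀ (v : Pr F) (q : Quad F), v ∉ S → (v ∈ sp q → condExp v q = 1) ∧
      (v ∉ sp q → condExp v q = 0) := by
    intro v q hv
    have hv2 : v.valuation F 2 = 1 := by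
      by_contra h
      exact hv ((hmemS v).2 h)
    obtain ⟨ha, hb'⟩ := hgood v q hv2
    exact ⟨fun h => ha ((hsp v q).1 h), fun h => hb' (fun h' => h ((hsp v q).2 h'))⟩
  have hprod : ∀ q : Quad F, condNorm q =
      (∏ v ∈ S, nm v ^ condExp v q) * ∏ v ∈ sp q \ S, nm v := by
    intro q
    have hsub : Function.mulSupport (fun v : Pr F => nm v ^ condExp v q) ⊆
        ((S ∪ (sp q \ S) : Finset (Pr F)) : Set (Pr F)) := by
      intro v hv
      by_contra hcon
      apply hv
      have hcon' : v ∉ S ∪ (sp q \ S) := fun h => hcon (Finset.mem_coe.2 h)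
      have hvS : v ∉ S := fun h => hcon' (Finset.mem_union_left _ h)
      have hvsp : v ∉ sp q := fun h =>
        hcon' (Finset.mem_union_right _ (Finset.mem_sdiff.2 ⟨h, hvS⟩))
      change nm v ^ condExp v q = 1
      rw [(hval v q hvS).2 hvsp, pow_zero]
    unfold condNorm
    rw [finprod_eq_prod_of_mulSupport_subset _ hsub, Finset.prod_union Finset.disjoint_sdiff]
    congr 1
    apply Finset.prod_congr rfl
    intro v hv
    rw [Finset.mem_sdiff] at hv
    rw [(hval v q hv.2).1 hv.1, pow_one]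
  have hnrm : ∀ q : Quad F, nrm (sp q) = (∏ v ∈ sp q ∩ S, nm v) * ∏ v ∈ sp q \ S, nm v := by
    intro q
    unfold nrm
    rw [← Finset.prod_union (Finset.disjoint_sdiff_inter (sp q) S).symm]
    congr 1
    ext v
    simp only [Finset.mem_union, Finset.mem_inter, Finset.mem_sdiff]
    tauto
  set C : ℕ := ∏ v ∈ S, nm v ^ (b v + 1) with hC
  have hC1 : 1 ≤ C := prod_pos' S _
  have hint : ∀ q : Quad F, ∏ v ∈ sp q ∩ S, nm v ≤ C := by
    intro q
    have e1 : ∏ v ∈ sp q ∩ S, nm v = ∏ v ∈ sp q ∩ S, nm v ^ 1 := by simp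
    rw [e1]
    refine (prod_le' (sp q ∩ S) (fun _ => 1) (fun v => b v + 1) (fun v _ => by omega)).trans ?_
    exact Finset.prod_le_prod_of_subset_of_one_le' Finset.inter_subset_right
      (fun v _ _ => Nat.one_le_pow _ _ (nm_pos v))
  have hSq : ∀ q : Quad F, ∏ v ∈ S, nm v ^ condExp v q ≤ C := by
    intro q
    exact prod_le' S (fun v => condExp v q) (fun v => b v + 1)
      (fun v _ => (hb v q).trans (Nat.le_succ _))
  have hpos1 : ∀ q : Quad F, 1 ≤ ∏ v ∈ sp q \ S, nm v := fun q => prod_pos1 _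
  have hpos2 : ∀ q : Quad F, 1 ≤ ∏ v ∈ sp q ∩ S, nm v := fun q => prod_pos1 _
  refine ⟨⟨(C : ℝ), by exact_mod_cast hC1, ?_⟩, ?_, ?_⟩
  · intro q
    constructor
    · have : nrm (sp q) ≤ C * condNorm q := by
        rw [hnrm, hprod]
        calc (∏ v ∈ sp q ∩ S, nm v) * ∏ v ∈ sp q \ S, nm v
            ≤ C * (1 * ∏ v ∈ sp q \ S, nm v) := by
              rw [one_mul]
              exact Nat.mul_le_mul_right _ (hint q)
          _ ≤ C * ((∏ v ∈ S, nm v ^ condExp v q) * ∏ v ∈ sp q \ S, nm v) :=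
              Nat.mul_le_mul_left _ (Nat.mul_le_mul_right _ (prod_pos' S _))
      exact_mod_cast this
    · have : condNorm q ≤ C * nrm (sp q) := by
        rw [hnrm, hprod]
        calc (∏ v ∈ S, nm v ^ condExp v q) * ∏ v ∈ sp q \ S, nm v
            ≤ C * (1 * ∏ v ∈ sp q \ S, nm v) := by
              rw [one_mul]
              exact Nat.mul_le_mul_right _ (hSq q)
          _ ≤ C * ((∏ v ∈ sp q ∩ S, nm v) * ∏ v ∈ sp q \ S, nm v) :=
              Nat.mul_le_mul_left _ (Nat.mul_le_mul_right _ (hpos2 q))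
      exact_mod_cast this
  · intro q
    rw [hprod]
    exact Nat.mul_pos (prod_pos' S _) (hpos1 q)
  · intro q hq
    ext u
    simp only [Set.mem_ofPred_eq]
    by_cases hu : u.valuation F 2 = 1
    · obtain ⟨ha, hb'⟩ := hgood u q hu
      constructor
      · intro h
        by_contra hcon
        exact h (hb' hcon)
      · intro h
        rw [ha h]
        exact one_ne_zero
    · have h3 := htr u q (hq u hu)
      have h4 := htr2 u q (hq u hu)
      constructor
      · intro h
        exact absurd h3 h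
      · intro h
        exact absurd h h4

end Pool.Agent.Lib.MP_50bb2e_nt.MT.H31
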