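import Pool.Agent.Lib.MP_50bb2e_nt.MT.Iface

/-! Module DEN: density one and positive upper density. -/

open NumberField IsDedekindDomain Filter Topology

namespace Pool.Agent.Lib.MP_50bb2e_nt.MT.H31

open Pool.Agent.Lib.MP_50bb2e_nt.MT

variable {F : Type} [Field F] [NumberField F]

theorem fin_sub (hfin : ∀ X : ℝ, {q : Quad F | (condNorm q : ℝ) ≤ X}.Finite)
    (A : Set (Quad F)) (X : ℝ) : {q : Quad F | q ∈ A ∧ (condNorm q : ℝ) ≤ X}.Finite :=
  (hfin X).subset (fun _ hq => hq.2)

theorem count_mono (hfin : ∀ X : ℝ, {q : Quad F | (condNorm q : ℝ) ≤ X}.Finite)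
    {A B : Set (Quad F)} (h : A ⊆ B) (X : ℝ) : count A X ≤ count B X :=
  Set.ncard_le_ncard (fun _ hq => ⟨h hq.1, hq.2⟩) (fin_sub hfin B X)

theorem count_split (hfin : ∀ X : ℝ, {q : Quad F | (condNorm q : ℝ) ≤ X}.Finite)
    (B : Set (Quad F)) (X : ℝ) :
    count (Set.univ : Set (Quad F)) X = count B X + count Bᶜ X := by
  unfold count
  rw [← Set.ncard_union_eq _ (fin_sub hfin B X) (fin_sub hfin Bᶜ X)]
  · congr 1
    ext q
    simp only [Set.mem_univ, true_and, Set.mem_ofPred_eq, Set.mem_union, Set.mem_compl_iff]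
    tauto
  · rw [Set.disjoint_left]
    intro q h1 h2
    exact h2.1 h1.1

theorem count_union_le (hfin : ∀ X : ℝ, {q : Quad F | (condNorm q : ℝ) ≤ X}.Finite)
    (E E' : Set (Quad F)) (X : ℝ) : count (E ∪ E') X ≤ count E X + count E' X := by
  unfold count
  refine le_trans (Set.ncard_le_ncard ?_ ((fin_sub hfin E X).union (fin_sub hfin E' X)))
    (Set.ncard_union_le _ _)
  intro q hq
  rcases hq.1 with h | h
  · exact Or.inl ⟨h, hq.2⟩
  · exact Or.inr ⟨h, hq.2⟩

theorem den (h : CqnS) : DenS := by
  intro F _ _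
  obtain ⟨hfin, ⟨C, hC, hup⟩, ⟨c, hc, hlow⟩, htr⟩ := h F
  refine ⟨?_, ?_, ?_⟩
  · intro B
    have hBB : (Set.univ : Set (Quad F)) ∩ B = B := Set.univ_inter B
    constructor
    · rintro hD ⟨e, he, hfr⟩
      unfold DensityOne at hD
      rw [hBB] at hD
      have h1 : ∀ᶠ X : ℝ in atTop, 1 - e / (2 * C) <
          (count B X : ℝ) / (count (Set.univ : Set (Quad F)) X : ℝ) :=
        hD.eventually (lt_mem_nhds (by
          have : 0 < e / (2 * C) := by positivity
          linarith))
      obtain ⟨X, hX1, hX2, hX3, hX4⟩ :=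
        (hfr.and_eventually (h1.and (hlow.and (eventually_gt_atTop 0)))).exists
      have hU : (count (Set.univ : Set (Quad F)) X : ℝ) ≤ C * X := hup X hX4.le
      have hUpos : (0 : ℝ) < (count (Set.univ : Set (Quad F)) X : ℝ) :=
        lt_of_lt_of_le (by positivity) hX3
      have hs : (count (Set.univ : Set (Quad F)) X : ℝ) = (count B X : ℝ) + (count Bᶜ X : ℝ) := by
        exact_mod_cast count_split hfin B X
      rw [lt_div_iff₀ hUpos] at hX2
      have h5 : e / (2 * C) * (count (Set.univ : Set (Quad F)) X : ℝ) ≤ e / (2 * C) * (C * X) :=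
        mul_le_mul_of_nonneg_left hU (by positivity)
      have h6 : e / (2 * C) * (C * X) = e * X / 2 := by
        field_simp
      have h7 : 0 < e * X := by positivity
      linarith
    · intro hP
      unfold DensityOne
      rw [hBB, Metric.tendsto_atTop']
      intro e he
      have h1 : ∀ᶠ X : ℝ in atTop, (count Bᶜ X : ℝ) < (e * c / 2) * X := by
        by_contra hcon
        apply hP
        refine ⟨e * c / 2, by positivity, ?_⟩
        intro hcon2
        apply hcon
        filter_upwards [hcon2] with X hX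
        exact not_le.1 hX
      obtain ⟨X0, hX0⟩ := eventually_atTop.1 (h1.and (hlow.and (eventually_gt_atTop 0)))
      refine ⟨X0, fun X hX => ?_⟩
      obtain ⟨g1, g2, g3⟩ := hX0 X hX.le
      have hUpos : (0 : ℝ) < (count (Set.univ : Set (Quad F)) X : ℝ) :=
        lt_of_lt_of_le (by positivity) g2
      have hs : (count (Set.univ : Set (Quad F)) X : ℝ) = (count B X : ℝ) + (count Bᶜ X : ℝ) := by
        exact_mod_cast count_split hfin B X
      rw [Real.dist_eq]
      have h8 : (count B X : ℝ) / (count (Set.univ : Set (Quad F)) X : ℝ) - 1 =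
          -((count Bᶜ X : ℝ) / (count (Set.univ : Set (Quad F)) X : ℝ)) := by
        rw [div_sub_one hUpos.ne', ← neg_div]
        congr 1
        linarith
      rw [h8, abs_neg, abs_of_nonneg (by positivity), div_lt_iff₀ hUpos]
      have h9 : e * (c * X) ≤ e * (count (Set.univ : Set (Quad F)) X : ℝ) :=
        mul_le_mul_of_nonneg_left g2 he.le
      have h10 : 0 < e * (c * X) := by positivity
      have h11 : (e * c / 2) * X = e * (c * X) / 2 := by ring
      linarith
  · rintro E q' ⟨e, he, hfr⟩
    obtain ⟨C', hC', hq'⟩ := htr q'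
    have hC'0 : 0 < C' := lt_of_lt_of_le one_pos hC'
    have key : ∀ X : ℝ, count {q : Quad F | q * q' ∈ E} X ≤ count E (C' * X) := by
      intro X
      unfold count
      refine Set.ncard_le_ncard_of_injOn (fun q => q * q') ?_ ?_ (fin_sub hfin E (C' * X))
      · intro q hq
        exact ⟨hq.1, (hq' q).trans (mul_le_mul_of_nonneg_left hq.2 hC'0.le)⟩
      · intro a _ b _ hab
        have h3 : a * q' = b * q' := hab
        have h4 : a * q' * q'⁻¹ = b * q' * q'⁻¹ := by rw [h3]
        rwa [mul_assoc, mul_assoc, mul_inv_cancel, mul_one, mul_one] at h4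
    refine ⟨e / C', by positivity, ?_⟩
    have ht : Tendsto (fun X : ℝ => C' * X) atTop atTop := tendsto_id.const_mul_atTop hC'0
    refine ht.frequently (hfr.mono ?_)
    intro X hX
    have : (count {q : Quad F | q * q' ∈ E} X : ℝ) ≤ (count E (C' * X) : ℝ) := by
      exact_mod_cast key X
    have h2 : e / C' * (C' * X) = e * X := by field_simp
    linarith
  · rintro E E' ⟨e, he, hfr⟩
    have h2 : ∃ᶠ X : ℝ in atTop, (e / 2 * X ≤ (count E X : ℝ)) ∨ (e / 2 * X ≤ (count E' X : ℝ)) := by
      refine hfr.mono ?_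
      intro X hX
      have : (count (E ∪ E') X : ℝ) ≤ (count E X : ℝ) + (count E' X : ℝ) := by
        exact_mod_cast count_union_le hfin E E' X
      by_contra hcon
      have h5 := not_or.1 hcon
      linarith [not_le.1 h5.1, not_le.1 h5.2]
    rcases frequently_or_distrib.1 h2 with h3 | h3
    · exact Or.inl ⟨e / 2, by positivity, h3⟩
    · exact Or.inr ⟨e / 2, by positivity, h3⟩

end Pool.Agent.Lib.MP_50bb2e_nt.MT.H31
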