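import Pool.Agent.Lib.MP_50bb2e_nt.MT.H16.Prd
import Pool.Agent.Lib.MP_50bb2e_nt.MT.H17.Cnt
import Pool.Agent.Lib.MP_50bb2e_nt.MT.H17.Ord
import Pool.Agent.Lib.MP_50bb2e_nt.MT.H17.Siv
import Pool.Agent.Lib.MP_50bb2e_nt.MT.H22.Fcn
import Pool.Agent.Lib.MP_50bb2e_nt.MT.H23.SV2
import Pool.Agent.Lib.MP_50bb2e_nt.MT.H30.Upp
import Pool.Agent.Lib.MP_50bb2e_nt.MT.H31.Cnd
import Pool.Agent.Lib.MP_50bb2e_nt.MT.H31.Den
import Pool.Agent.Lib.MP_50bb2e_nt.MT.H43.Low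
import Pool.Agent.Lib.MP_50bb2e_nt.MT.H50.Kfi
import Pool.Agent.Lib.MP_50bb2e_nt.MT.H50.Sqt
import Pool.Agent.Lib.MP_50bb2e_nt.MT.H57.Lfi
import Pool.Agent.Lib.MP_50bb2e_nt.MT.H57.Pri
import Pool.Agent.Lib.MP_50bb2e_nt.MT.H57.Qon
import Pool.Agent.Lib.MP_50bb2e_nt.MT.H57.Twr
import Pool.Agent.Lib.MP_50bb2e_nt.MT.H59.Seq
import Pool.Agent.Lib.MP_50bb2e_nt.MT.H65.Hen
import Pool.Agent.Lib.MP_50bb2e_nt.MT.H65.Lin
import Pool.Agent.Lib.MP_50bb2e_nt.MT.H74.Step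
import Pool.Agent.Lib.MP_50bb2e_nt.MT.H9.Cex
import Pool.Agent.Lib.MP_50bb2e_nt.MT.H9.Fam
import Pool.Agent.Lib.MP_50bb2e_nt.MT.H91.Cqn

/-! Project MT: all modules put together, no hypotheses left. -/

namespace Pool.Agent.Lib.MP_50bb2e_nt.MT.All

open Pool.Agent.Lib.MP_50bb2e_nt.MT

theorem ord : OrdS := H17.ord
theorem cnt : CntS := H17.cnt
theorem fcn : FcnS := H22.fcn cnt
theorem siv : SivS := H17.siv cnt
theorem sv2 : Sv2S := H23.sv2 siv Pool.Agent.Lib.MP_50bb2e_nt.MT.prd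
theorem kfi : KfiS := H50.kfi ord
theorem sqt : SqtS := H50.sqt cnt
theorem upp : UppS := H30.upp fcn kfi
theorem pri : PriS := H57.pri ord
theorem low : LowS := H43.low cnt upp sqt pri
theorem hen : HenS := H65.hen
theorem lfi : LfiS := H57.lfi hen ord
theorem lin : LinS := H65.lin
theorem cex : CexS := H9.cex ord
theorem cnd : CndS := H31.cnd ord cex
theorem cqn : CqnS := H91.cqn ord upp low cnd
theorem den : DenS := H31.den cqn
theorem step : StepS := H74.step ord fcn sv2 kfi cnd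
theorem seq : SeqS := H59.seq step lfi lin cex cnd
theorem twr : TwrS := H57.twr seq den
theorem fam : FamS := H9.fam den
theorem qon : QonS := H57.qon lfi lin den cqn

end Pool.Agent.Lib.MP_50bb2e_nt.MT.All
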